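import Pool.Agent.H24.Eol8

namespace Pool.Agent.Results.MP_123b7c_lc.Yes
open Pool.Agent.H24.Eol

/-- If some EOL form is complete for the s-grammatical family of a context-free grammar form,
then that family is contained in the linear languages. -/
theorem result : ∀ G : Gr, IsCF G → (∃ F : Gr, IsEOL F ∧ FamEq (famEOL F) (famCF G)) →
    Sub (famCF G) LIN :=
  fun G _ ⟨F, _, h⟩ => main G F h

end Pool.Agent.Results.MP_123b7c_lc.Yes
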